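import Mathlib

set_option autoImplicit false

/-!
# Residue classes modulo irreducible polynomials near `N^α` over `F_q[t]` (MP_bb5cc8_nt), interface

Goal: `F` a finite field with `q ≥ 3` elements, `n / 2 < m < n`. For EVERY choice `a` of residue
classes modulo the monic irreducible polynomials of degree `m` the number of covered polynomials of
degree `< n` is at least `q ^ n / (2 ^ (n + 2) n (n log q + 1))`.

Proof: the class `a P + P F[t]` contains, in the vector space of the polynomials of degree `< n`, a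
line in the direction of every multiple `h ≠ 0` of `P`. Let `D` be the set of these directions for
all `P` (piece COUNT: at least `q ^ n / (4 m)` elements, with IRRED). Identify the vector space with
the field `E` with `q ^ n` elements; `M ≤ (|Eˣ| / |D|) log |Eˣ| + 1` multiples of `D` cover `Eˣ`
(piece COVER), so `M` multiples of the covered set have lines in all directions and have together at
least `(q / 2) ^ n` elements (piece KAK, Dvir-Kopparty-Saraf-Sudan).
-/

namespace Pool.Agent.Run7.h338.FF

open Polynomial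

/-- **KAK** (helper338). Kakeya sets over finite fields, method of multiplicities. -/
def S_KAK : Prop :=
  ∀ (F : Type) [Field F] [Fintype F] [DecidableEq F] (n : ℕ) (K : Finset (Fin n → F)), 1 ≤ n →
    (∀ b : Fin n → F, b ≠ 0 → ∃ a : Fin n → F, ∀ t : F, a + t • b ∈ K) →
      ((Fintype.card F : ℝ) / 2) ^ n ≤ K.card

/-- **COVER** (60 lines). In a finite group few translates of `D` cover the group.
Proof: for `U ⊆ G` one has `∑ c, |U ∩ c D| = |U| |D|` (for `u ∈ U`, `d ∈ D` there is exactly one
`c` with `c d = u`), so some `c` has `|U ∩ c D| |G| ≥ |U| |D|`. By induction on `t` there is `C` with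
`|C| ≤ t` such that the set `U` of the uncovered elements has
`|U| |G| ^ t ≤ |G| (|G| - |D|) ^ t`. For `t = ⌊log |G| · |G| / |D|⌋ + 1` this gives
`|U| ≤ |G| (1 - |D| / |G|) ^ t ≤ |G| exp (- t |D| / |G|) < 1`. -/
def S_COVER : Prop :=
  ∀ (G : Type) [Group G] [Fintype G] [DecidableEq G] (D : Finset G), D.Nonempty →
    ∃ C : Finset G, (∀ g : G, ∃ c ∈ C, ∃ d ∈ D, c * d = g) ∧
      (C.card : ℝ) ≤ Real.log (Fintype.card G) * (Fintype.card G / D.card) + 1

/-- **IRRED** (100 lines). Port of `Pool.Agent.Helper580_sidon.many_irred`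
(file `Pool/Agent/Helper580_sidon/Irred.lean`, case `F = ZMod p`, `p` odd) to any finite field with
at least three elements: take for `L` an extension of degree `d` of `F`
(`FiniteField.Extension` in `Mathlib/FieldTheory/Finite/Extension.lean`). -/
def S_IRRED : Prop :=
  ∀ (F : Type) [Field F] [Fintype F] (d : ℕ), 3 ≤ Fintype.card F → 0 < d →
    ∃ S : Finset F[X], (∀ P ∈ S, P.Monic ∧ Irreducible P ∧ P.natDegree = d) ∧
      Fintype.card F ^ d ≤ 2 * d * S.card

/-- **COUNT** (80 lines). The number of directions. The map `(P, g) ↦ P g` from `Q × {g ≠ 0, deg g < n - m}`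
to the set on the right is injective: two different monic irreducible `P`, `P'` of degree `m`
which divide `h ≠ 0` are coprime, hence `2 m ≤ deg h < n`, against `n ≤ 2 m`. There are
`q ^ (n - m) - 1` polynomials `g` (`Polynomial.degreeLTEquiv`). -/
def S_COUNT : Prop :=
  ∀ (F : Type) [Field F] [Fintype F] (m n : ℕ) (Q : Finset F[X]), 0 < m → m < n → n ≤ 2 * m →
    (∀ P ∈ Q, P.Monic ∧ Irreducible P ∧ P.natDegree = m) →
      Q.card * (Fintype.card F ^ (n - m) - 1) ≤
        {h : F[X] | h ≠ 0 ∧ h.degree < (n : ℕ) ∧ ∃ P ∈ Q, P ∣ h}.ncard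

/-- **DIR** (120 lines, uses KAK and COVER). The bound with the number of directions, for arbitrary
moduli `P ∈ Q` of degree at most `m < n`.
Proof: `V = (Fin n → F)`, `e : Polynomial.degreeLTEquiv F n`, `E` a field extension of `F` of degree
`n` (`FiniteField.Extension`), `φ : V ≃ₗ[F] E` any linear equivalence (same dimension). `S ⊆ V`: vectors
of the covered polynomials; `D' ⊆ Eˣ`: images of the directions `h` in the set on the left. COVER for
`G = Eˣ` gives `C`; `K = ⋃ c ∈ C, φ⁻¹ (c φ (S))` contains a line in every direction `b ≠ 0`: `φ b = c φ(h)`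
with `h = P g`, and `r + t h ∈ S` for all `t`, `r = a P % P` (degree `< deg P ≤ m < n`). KAK:
`(q / 2) ^ n ≤ |K| ≤ |C| |S| ≤ (n log q · q ^ n / |D'| + 1) |S| ≤ (n log q + 1) (q ^ n / |D'|) |S|`. -/
def S_DIR : Prop :=
  ∀ (F : Type) [Field F] [Fintype F] (m n : ℕ) (Q : Finset F[X]) (a : F[X] → F[X]), 0 < m → m < n →
    (∀ P ∈ Q, P ≠ 0 ∧ P.natDegree ≤ m) →
      ({h : F[X] | h ≠ 0 ∧ h.degree < (n : ℕ) ∧ ∃ P ∈ Q, P ∣ h}.ncard : ℝ) ≤
        2 ^ n * (n * Real.log (Fintype.card F) + 1) *
          ({f : F[X] | f.degree < (n : ℕ) ∧ ∃ P ∈ Q, P ∣ f - a P}.ncard : ℝ)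

end Pool.Agent.Run7.h338.FF
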