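import Mathlib
import Pool.Agent.H822.Mult
import Pool.Agent.Run7.h338.FF.Iface

set_option autoImplicit false

/-!
# Interface, second part: constants independent of `q` (MP_bb5cc8_nt)

With the sum form of the Schwartz-Zippel lemma with multiplicities the Kakeya bound holds for lines in
a proportion `1 - δ` of all directions, and the factor `n log q + 1` becomes `2 (log n + 2)`.
-/

namespace Pool.Agent.Run7.h338.FF

open Polynomial

/-- **MSUM** (70 lines). Schwartz-Zippel with multiplicities, sum form (Dvir-Kopparty-Saraf-Sudan,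
Lemma 2.7). Proof: modify `Pool.Agent.H822.mult_lemma` (file `Pool/Agent/H822/Mult.lean`). Induction on
`c`; `c = 0`: `G` is a nonzero constant, so `μ v = 0`. Step: `H = finSuccEquiv F c G`,
`i₀ = H.natDegree`, `g = H.coeff i₀ ≠ 0`, `g.totalDegree + i₀ ≤ G.totalDegree`. For `v' : Fin c → F`
let `μ' v'` be the exact multiplicity of `g` at `v'`: the least `γ'.degree` with
`coeff γ' (sh v' g) ≠ 0` (exists: else `sh v' g = 0`, so `g = sh (-v') (sh v' g) = 0`). For this `γ'` the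
polynomial `p = slice v' γ' H` has degree `i₀` and is nonzero, and by `taylor_slice` the coefficient `i`
of `taylor a p` is `coeff (cons i γ') (sh (cons a v') G)`, zero for `i + μ' v' < μ (cons a v')`; so
`∏ a, (X - C a) ^ (μ (cons a v') - μ' v')` divides `p` and
`∑ a, μ (cons a v') ≤ q * μ' v' + i₀`. Sum over `v'` (`Fin.consEquiv` / `Fintype.sum_equiv`,
`∑ v : Fin (c+1) → F, μ v = ∑ v', ∑ a, μ (Fin.cons a v')`) and use the induction hypothesis for
`g`, `μ'`. -/
def S_MSUM : Prop :=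
  ∀ (F : Type) [Field F] [Fintype F] (c : ℕ) (μ : (Fin c → F) → ℕ) (G : MvPolynomial (Fin c) F),
    (∀ (v : Fin c → F) (γ : Fin c →₀ ℕ), γ.degree < μ v →
      MvPolynomial.coeff γ (Pool.Agent.H822.sh v G) = 0) → G ≠ 0 →
      Fintype.card F * ∑ v, μ v ≤ G.totalDegree * Fintype.card F ^ c

/-- **KAK2** (helper338). Kakeya sets with lines in the directions `b ∈ B`. -/
def S_KAK2 : Prop :=
  ∀ (F : Type) [Field F] [Fintype F] [DecidableEq F] (n : ℕ) (K B : Finset (Fin n → F)) (δ : ℝ),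
    1 ≤ n → 0 ≤ δ → δ < 1 →
    (∀ b ∈ B, b ≠ 0 ∧ ∃ a : Fin n → F, ∀ t : F, a + t • b ∈ K) → B.Nonempty →
      (1 - δ) * (Fintype.card F : ℝ) ^ n ≤ B.card + 1 →
      ((1 - δ) * (Fintype.card F : ℝ) / 2) ^ n ≤ K.card

/-- **DIR2** (helper338). -/
def S_DIR2 : Prop :=
  ∀ (F : Type) [Field F] [Fintype F] (m n : ℕ) (Q : Finset F[X]) (a : F[X] → F[X]), 0 < m → m < n →
    (∀ P ∈ Q, P ≠ 0 ∧ P.natDegree ≤ m) →
      ({h : F[X] | h ≠ 0 ∧ h.degree < (n : ℕ) ∧ ∃ P ∈ Q, P ∣ h}.ncard : ℝ) ≤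
        2 ^ (n + 1) * (Real.log n + 2) *
          ({f : F[X] | f.degree < (n : ℕ) ∧ ∃ P ∈ Q, P ∣ f - a P}.ncard : ℝ)

end Pool.Agent.Run7.h338.FF
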