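import Mathlib
import Pool.Agent.H822.Mult
import Pool.Agent.Run7.h338.FF.Iface

set_option autoImplicit false

/-!
# Kakeya sets over finite fields (Dvir, Dvir-Kopparty-Saraf-Sudan)
-/

open MvPolynomial Pool.Agent.H822

namespace Pool.Agent.Run7.h338.FF

/-! ### Index sets -/

/-- Exponents of degree `< μ`. -/
noncomputable def idx (n μ : ℕ) : Finset (Fin n →₀ ℕ) :=
  (Finset.range μ).biUnion (fun k => Finset.finsuppAntidiag Finset.univ k)

lemma mem_idx {n μ : ℕ} (γ : Fin n →₀ ℕ) : γ ∈ idx n μ ↔ γ.degree < μ := by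
  unfold idx
  rw [Finset.mem_biUnion]
  constructor
  · rintro ⟨k, hk, hγ⟩
    rw [Finset.mem_finsuppAntidiag] at hγ
    rw [Finsupp.degree_eq_sum, hγ.1]
    exact Finset.mem_range.1 hk
  · intro h
    refine ⟨γ.degree, Finset.mem_range.2 h, ?_⟩
    rw [Finset.mem_finsuppAntidiag]
    refine ⟨?_, Finset.subset_univ _⟩
    rw [Finsupp.degree_eq_sum]

lemma card_idx (r μ : ℕ) : (idx (r + 1) (μ + 1)).card = (r + 1 + μ).choose μ := by
  classical
  unfold idx
  rw [Finset.card_biUnion]
  · simp_rw [Finset.card_finsuppAntidiag_nat_eq_choose]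
    induction μ with
    | zero => simp
    | succ μ ih =>
      rw [Finset.sum_range_succ, ih]
      simp only [Finset.card_univ, Fintype.card_fin]
      have : r + 1 + (μ + 1) = (r + 1 + μ) + 1 := by ring
      rw [this, Nat.choose_succ_succ (r + 1 + μ) μ]
      congr 2
  · intro i _ j _ hij
    rw [Function.onFun, Finset.disjoint_left]
    intro γ h1 h2
    rw [Finset.mem_finsuppAntidiag] at h1 h2
    exact hij (h1.1.symm.trans h2.1)

lemma card_idx' (n M : ℕ) (hn : 1 ≤ n) (hM : 1 ≤ M) :
    n.factorial * (idx n M).card = M.ascFactorial n := by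
  obtain ⟨r, rfl⟩ : ∃ r, n = r + 1 := ⟨n - 1, by omega⟩
  obtain ⟨μ, rfl⟩ : ∃ μ, M = μ + 1 := ⟨M - 1, by omega⟩
  rw [card_idx, Nat.ascFactorial_eq_factorial_mul_choose']
  congr 1
  rw [← Nat.choose_symm_add]
  congr 1
  omega

/-! ### Binomials -/

lemma bc_eq_zero {R : Type*} [CommRing R] {n : ℕ} (a : Fin n → R) {β γ : Fin n →₀ ℕ}
    (h : ¬ γ ≤ β) : bc a β γ = 0 := by
  rw [Finsupp.le_def] at h
  push Not at h
  obtain ⟨i, hi⟩ := h
  unfold bc
  apply Finset.prod_eq_zero (Finset.mem_univ i)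
  rw [Nat.choose_eq_zero_of_lt hi]
  simp

lemma sum_sub_eq {n : ℕ} {β γ : Fin n →₀ ℕ} (h : γ ≤ β) :
    ∑ i, (β i - γ i) = β.degree - γ.degree := by
  rw [Finsupp.degree_eq_sum, Finsupp.degree_eq_sum, Finset.sum_tsub_distrib]
  intro i _
  exact h i

lemma prod_coeff {R : Type*} [CommRing R] {ι : Type*} (s : Finset ι) (f : ι → Polynomial R)
    (e : ι → ℕ) (h : ∀ i ∈ s, (f i).natDegree ≤ e i) :
    (∏ i ∈ s, f i).natDegree ≤ ∑ i ∈ s, e i ∧
      (∏ i ∈ s, f i).coeff (∑ i ∈ s, e i) = ∏ i ∈ s, (f i).coeff (e i) := by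
  classical
  induction s using Finset.induction_on with
  | empty => simp
  | insert i s hi ih =>
    rw [Finset.prod_insert hi, Finset.sum_insert hi, Finset.prod_insert hi]
    obtain ⟨h1, h2⟩ := ih (fun j hj => h j (Finset.mem_insert_of_mem hj))
    have h3 := h i (Finset.mem_insert_self i s)
    refine ⟨Polynomial.natDegree_mul_le.trans (add_le_add h3 h1), ?_⟩
    rw [Polynomial.coeff_mul_add_eq_of_natDegree_le h3 h1, h2]

section line

variable {F : Type*} [Field F] {n : ℕ}

/-- the line `x + X b` -/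
noncomputable def lin (x b : Fin n → F) : Fin n → Polynomial F :=
  fun i => Polynomial.C (x i) + Polynomial.X * Polynomial.C (b i)

lemma natDegree_lin (x b : Fin n → F) (i : Fin n) : (lin x b i).natDegree ≤ 1 := by
  unfold lin
  compute_degree

lemma coeff_lin (x b : Fin n → F) (i : Fin n) : (lin x b i).coeff 1 = b i := by
  unfold lin
  simp [Polynomial.coeff_C]

lemma bc_lin (x b : Fin n → F) {β γ : Fin n →₀ ℕ} (h : γ ≤ β) :
    (bc (lin x b) β γ).natDegree ≤ β.degree - γ.degree ∧
      (bc (lin x b) β γ).coeff (β.degree - γ.degree) = bc b β γ := by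
  have h1 := prod_coeff Finset.univ
    (fun i => ((β i).choose (γ i) : Polynomial F) * (lin x b i) ^ (β i - γ i))
    (fun i => β i - γ i) (by
      intro i _
      refine Polynomial.natDegree_mul_le.trans ?_
      rw [Polynomial.natDegree_natCast, zero_add]
      refine Polynomial.natDegree_pow_le.trans ?_
      calc (β i - γ i) * (lin x b i).natDegree ≤ (β i - γ i) * 1 :=
            Nat.mul_le_mul_left _ (natDegree_lin x b i)
        _ = β i - γ i := mul_one _)
  rw [sum_sub_eq h] at h1
  refine ⟨h1.1, h1.2.trans ?_⟩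
  unfold bc
  apply Finset.prod_congr rfl
  intro i _
  rw [← Polynomial.C_eq_natCast, Polynomial.coeff_C_mul]
  have h2 := Polynomial.coeff_pow_of_natDegree_le (m := β i - γ i) (natDegree_lin x b i)
  rw [mul_one] at h2
  rw [h2, coeff_lin]

/-- The restriction to a line of a Hasse derivative of `P`. -/
noncomputable def QQ (x b : Fin n → F) (γ : Fin n →₀ ℕ) (P : MvPolynomial (Fin n) F) :
    Polynomial F :=
  ∑ β ∈ P.support, Polynomial.C (coeff β P) * bc (lin x b) β γ

lemma natDegree_QQ (x b : Fin n → F) (γ : Fin n →₀ ℕ) (P : MvPolynomial (Fin n) F) (D : ℕ)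
    (hD : ∀ β ∈ P.support, β.degree ≤ D) : (QQ x b γ P).natDegree ≤ D - γ.degree := by
  unfold QQ
  apply Polynomial.natDegree_sum_le_of_forall_le
  intro β hβ
  by_cases h : γ ≤ β
  · refine (Polynomial.natDegree_C_mul_le _ _).trans ((bc_lin x b h).1.trans ?_)
    have := hD β hβ
    omega
  · rw [bc_eq_zero _ h]; simp

lemma degree_mono' {β γ : Fin n →₀ ℕ} (h : γ ≤ β) : γ.degree ≤ β.degree := by
  rw [Finsupp.degree_eq_sum, Finsupp.degree_eq_sum]
  exact Finset.sum_le_sum (fun i _ => h i)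

lemma coeff_QQ (x b : Fin n → F) (γ : Fin n →₀ ℕ) (P : MvPolynomial (Fin n) F) (D : ℕ)
    (hD : ∀ β ∈ P.support, β.degree ≤ D) :
    (QQ x b γ P).coeff (D - γ.degree) = coeff γ (sh b (homogeneousComponent D P)) := by
  classical
  have h0 : homogeneousComponent D P = ∑ β ∈ P.support, homogeneousComponent D (monomial β (coeff β P)) := by
    conv_lhs => rw [P.as_sum]
    rw [map_sum]
  rw [h0, map_sum, coeff_sum]
  unfold QQ
  rw [Polynomial.finsetSum_coeff]
  apply Finset.sum_congr rfl
  intro β hβ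
  have h1 : homogeneousComponent D (monomial β (coeff β P)) =
      if β.degree = D then monomial β (coeff β P) else 0 := by
    ext m
    rw [coeff_homogeneousComponent]
    by_cases hm : β = m
    · subst hm
      split_ifs <;> simp
    · split_ifs <;> simp [hm, coeff_monomial]
  rw [h1, Polynomial.coeff_C_mul]
  by_cases hβD : β.degree = D
  · rw [if_pos hβD, coeff_sh_monomial]
    congr 1
    by_cases h : γ ≤ β
    · have := (bc_lin x b h).2
      rw [hβD] at this
      exact this
    · rw [bc_eq_zero _ h, bc_eq_zero _ h]; simp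
  · rw [if_neg hβD]
    simp only [map_zero, coeff_zero, mul_eq_zero]
    right
    by_cases h : γ ≤ β
    · apply Polynomial.coeff_eq_zero_of_natDegree_lt
      refine lt_of_le_of_lt (bc_lin x b h).1 ?_
      have h2 := hD β hβ
      have h3 := degree_mono' h
      omega
    · rw [bc_eq_zero _ h]; simp

lemma taylor_bc (t : F) (x b : Fin n → F) (β γ : Fin n →₀ ℕ) :
    Polynomial.taylor t (bc (lin x b) β γ) = bc (lin (x + t • b) b) β γ := by
  have h := map_prod (Polynomial.taylorAlgHom t)
    (fun i => ((β i).choose (γ i) : Polynomial F) * (lin x b i) ^ (β i - γ i)) Finset.univ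
  have h2 : Polynomial.taylor t (bc (lin x b) β γ) =
      (Polynomial.taylorAlgHom t) (bc (lin x b) β γ) := rfl
  rw [h2]
  unfold bc
  rw [h]
  apply Finset.prod_congr rfl
  intro i _
  rw [map_mul, map_pow, map_natCast]
  congr 2
  unfold lin
  rw [map_add, map_mul]
  simp only [Polynomial.taylorAlgHom_apply, Polynomial.taylor_C, Polynomial.taylor_X, Pi.add_apply,
    Pi.smul_apply, smul_eq_mul, map_add, map_mul]
  ring

lemma taylor_QQ (t : F) (x b : Fin n → F) (γ : Fin n →₀ ℕ) (P : MvPolynomial (Fin n) F) :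
    Polynomial.taylor t (QQ x b γ P) = QQ (x + t • b) b γ P := by
  unfold QQ
  rw [map_sum]
  apply Finset.sum_congr rfl
  intro β _
  have h2 : ∀ p q : Polynomial F, Polynomial.taylor t (p * q) =
      Polynomial.taylor t p * Polynomial.taylor t q := fun p q => Polynomial.taylor_mul t p q
  rw [h2, Polynomial.taylor_C, taylor_bc]

lemma map_sh (x : Fin n → F) (P : MvPolynomial (Fin n) F) :
    sh (fun i => Polynomial.C (x i)) (MvPolynomial.map Polynomial.C P) =
      MvPolynomial.map Polynomial.C (sh x P) := by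
  induction P using MvPolynomial.induction_on with
  | C a => simp [sh_C]
  | add p q hp hq => simp [hp, hq]
  | mul_X p i hp => simp [hp, sh_X]

lemma QQ_eq (x b : Fin n → F) (γ : Fin n →₀ ℕ) (P : MvPolynomial (Fin n) F) :
    QQ x b γ P = coeff γ (sh (lin x b) (MvPolynomial.map Polynomial.C P)) := by
  have h0 : MvPolynomial.map Polynomial.C P =
      ∑ β ∈ P.support, (monomial β (Polynomial.C (coeff β P)) : MvPolynomial (Fin n) (Polynomial F)) := by
    conv_lhs => rw [P.as_sum]
    rw [map_sum]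
    simp only [map_monomial]
  rw [h0, map_sum, coeff_sum]
  unfold QQ
  apply Finset.sum_congr rfl
  intro β _
  rw [coeff_sh_monomial]

lemma QQ_eq' (x b : Fin n → F) (γ : Fin n →₀ ℕ) (P : MvPolynomial (Fin n) F) :
    QQ x b γ P = ∑ β ∈ (sh x P).support,
      Polynomial.C (coeff β (sh x P)) * bc (fun i => Polynomial.X * Polynomial.C (b i)) β γ := by
  have h1 : lin x b = (fun i => Polynomial.X * Polynomial.C (b i)) + (fun i => Polynomial.C (x i)) := by
    funext i
    simp only [lin, Pi.add_apply]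
    ring
  have h0 : MvPolynomial.map Polynomial.C (sh x P) =
      ∑ β ∈ (sh x P).support, (monomial β (Polynomial.C (coeff β (sh x P))) :
        MvPolynomial (Fin n) (Polynomial F)) := by
    conv_lhs => rw [(sh x P).as_sum]
    rw [map_sum]
    simp only [map_monomial]
  rw [QQ_eq, h1, ← sh_sh, map_sh, h0, map_sum, coeff_sum]
  apply Finset.sum_congr rfl
  intro β _
  rw [coeff_sh_monomial]

lemma X_pow_dvd_bc (b : Fin n → F) (β γ : Fin n →₀ ℕ) (m : ℕ) (h : m + γ.degree ≤ β.degree) :
    Polynomial.X ^ m ∣ bc (fun i => Polynomial.X * Polynomial.C (b i)) β γ := by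
  by_cases hγ : γ ≤ β
  · have h1 : bc (fun i => Polynomial.X * Polynomial.C (b i)) β γ =
        Polynomial.X ^ (β.degree - γ.degree) *
          ∏ i, (((β i).choose (γ i) : Polynomial F) * (Polynomial.C (b i)) ^ (β i - γ i)) := by
      rw [← sum_sub_eq hγ, ← Finset.prod_pow_eq_pow_sum, ← Finset.prod_mul_distrib]
      unfold bc
      apply Finset.prod_congr rfl
      intro i _
      rw [mul_pow]
      ring
    rw [h1]
    apply Dvd.dvd.mul_right
    apply pow_dvd_pow
    omega
  · rw [bc_eq_zero _ hγ]; exact dvd_zero _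

lemma X_pow_dvd_QQ (x b : Fin n → F) (γ : Fin n →₀ ℕ) (P : MvPolynomial (Fin n) F) (A : ℕ)
    (h : ∀ β : Fin n →₀ ℕ, β.degree < A → coeff β (sh x P) = 0) :
    Polynomial.X ^ (A - γ.degree) ∣ QQ x b γ P := by
  rw [QQ_eq']
  apply Finset.dvd_sum
  intro β _
  by_cases hβ : β.degree < A
  · rw [h β hβ]; simp
  · apply Dvd.dvd.mul_left
    by_cases hγ : γ ≤ β
    · have h3 := degree_mono' hγ
      apply X_pow_dvd_bc
      omega
    · rw [bc_eq_zero _ hγ]; exact dvd_zero _

/-- Main step: the Hasse derivatives of the top degree part vanish at every direction of a line in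
the set. -/
lemma top_vanish [Fintype F] (x b : Fin n → F) (γ : Fin n →₀ ℕ) (P : MvPolynomial (Fin n) F)
    (k D : ℕ) (hD : ∀ β ∈ P.support, β.degree ≤ D) (hDk : D < k * Fintype.card F)
    (hγ : γ.degree < k)
    (h : ∀ t : F, ∀ β : Fin n →₀ ℕ, β.degree < 2 * k → coeff β (sh (x + t • b) P) = 0) :
    coeff γ (sh b (homogeneousComponent D P)) = 0 := by
  classical
  rw [← coeff_QQ x b γ P D hD]
  have hq : 0 < Fintype.card F := Fintype.card_pos
  suffices hz : QQ x b γ P = 0 by rw [hz]; simp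
  by_contra hne
  have hdvd : ∀ t ∈ (Finset.univ : Finset F),
      (Polynomial.X - Polynomial.C t) ^ (2 * k - γ.degree) ∣ QQ x b γ P := by
    intro t _
    rw [Polynomial.X_sub_C_pow_dvd_iff, ← Polynomial.taylor_apply, taylor_QQ]
    exact X_pow_dvd_QQ _ b γ P (2 * k) (h t)
  have hprod : ∏ t : F, (Polynomial.X - Polynomial.C t) ^ (2 * k - γ.degree) ∣ QQ x b γ P := by
    apply Finset.prod_dvd_of_coprime _ hdvd
    intro a _ c _ hab
    apply IsCoprime.pow
    exact Polynomial.isCoprime_X_sub_C_of_isUnit_sub (sub_ne_zero.2 hab).isUnit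
  have hd := Polynomial.natDegree_le_of_dvd hprod hne
  rw [Polynomial.natDegree_prod _ _ (fun a _ => pow_ne_zero _ (Polynomial.X_sub_C_ne_zero a))] at hd
  simp only [Polynomial.natDegree_pow, Polynomial.natDegree_X_sub_C, mul_one, Finset.sum_const,
    Finset.card_univ, smul_eq_mul] at hd
  have hd2 := natDegree_QQ x b γ P D hD
  have h1 : Fintype.card F * k ≤ Fintype.card F * (2 * k - γ.degree) :=
    Nat.mul_le_mul_left _ (by omega)
  have h2 : k * Fintype.card F = Fintype.card F * k := mul_comm _ _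
  omega

end line

/-! ### Existence of the polynomial -/

lemma exists_poly {F : Type*} [Field F] {n : ℕ} (K : Finset (Fin n → F)) (A B : ℕ)
    (h : K.card * (idx n A).card < (idx n B).card) :
    ∃ P : MvPolynomial (Fin n) F, P ≠ 0 ∧ (∀ β ∈ P.support, β.degree < B) ∧
      ∀ x ∈ K, ∀ γ : Fin n →₀ ℕ, γ.degree < A → coeff γ (sh x P) = 0 := by
  classical
  let S : (idx n B → F) →ₗ[F] MvPolynomial (Fin n) F :=
    ∑ β : idx n B, (monomial β.1 : F →ₗ[F] MvPolynomial (Fin n) F) ∘ₗ LinearMap.proj β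
  have hS : ∀ c : idx n B → F, S c = ∑ β : idx n B, monomial β.1 (c β) := by
    intro c
    simp [S]
  let T : (idx n B → F) →ₗ[F] (K × idx n A → F) :=
    LinearMap.pi (fun p => (MvPolynomial.lcoeff F p.2.1) ∘ₗ (sh p.1.1).toLinearMap ∘ₗ S)
  have hT : ∀ (c : idx n B → F) (p : K × idx n A), T c p = coeff p.2.1 (sh p.1.1 (S c)) := by
    intro c p
    simp [T, MvPolynomial.lcoeff]
  have hker : LinearMap.ker T ≠ ⊥ := by
    apply LinearMap.ker_ne_bot_of_finrank_lt
    rw [Module.finrank_fintype_fun_eq_card, Module.finrank_fintype_fun_eq_card, Fintype.card_prod,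
      Fintype.card_coe, Fintype.card_coe, Fintype.card_coe]
    exact h
  obtain ⟨c, hc, hc0⟩ := (Submodule.ne_bot_iff _).1 hker
  have hcoeff : ∀ γ : Fin n →₀ ℕ, coeff γ (S c) = if hγ : γ ∈ idx n B then c ⟨γ, hγ⟩ else 0 := by
    intro γ
    rw [hS, coeff_sum]
    simp only [coeff_monomial]
    split_ifs with hγ
    · rw [Finset.sum_eq_single ⟨γ, hγ⟩]
      · simp
      · intro β _ hβ
        rw [if_neg]
        intro h2
        exact hβ (Subtype.ext h2)
      · intro h2; exact absurd (Finset.mem_univ _) h2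
    · apply Finset.sum_eq_zero
      intro β _
      rw [if_neg]
      intro h2
      exact hγ (h2 ▸ β.2)
  refine ⟨S c, ?_, ?_, ?_⟩
  · intro h0
    apply hc0
    funext β
    have := hcoeff β.1
    rw [h0, dif_pos β.2] at this
    simpa using this.symm
  · intro β hβ
    rw [mem_support_iff, hcoeff] at hβ
    by_contra h2
    rw [dif_neg (by rw [mem_idx]; exact h2)] at hβ
    exact hβ rfl
  · intro x hx γ hγ
    have := hT c (⟨x, hx⟩, ⟨γ, (mem_idx γ).2 hγ⟩)
    rw [LinearMap.mem_ker.1 hc] at this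
    simpa using this.symm

/-- The counting inequality of the method of multiplicities. -/
lemma kak_count {F : Type*} [Field F] [Fintype F] (n : ℕ) (K : Finset (Fin n → F)) (hn : 1 ≤ n)
    (hK : ∀ b : Fin n → F, b ≠ 0 → ∃ a : Fin n → F, ∀ t : F, a + t • b ∈ K) (k : ℕ) (hk : 1 ≤ k) :
    (idx n (k * Fintype.card F)).card ≤ K.card * (idx n (2 * k)).card := by
  classical
  by_contra hlt
  push Not at hlt
  obtain ⟨P, hP0, hPB, hPK⟩ := exists_poly K (2 * k) (k * Fintype.card F) hlt
  have hne : P.support.Nonempty := by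
    rw [Finset.nonempty_iff_ne_empty, Ne, MvPolynomial.support_eq_empty]
    exact hP0
  obtain ⟨β₀, hβ₀, hmax⟩ := Finset.exists_max_image P.support (fun β => β.degree) hne
  set D := β₀.degree with hDdef
  have hDB : D < k * Fintype.card F := hPB β₀ hβ₀
  set H := homogeneousComponent D P with hH
  have hcoH : ∀ γ, coeff γ H = if γ.degree = D then coeff γ P else 0 := by
    intro γ
    rw [hH, coeff_homogeneousComponent]
  have hH0 : H ≠ 0 := by
    intro h0
    have := hcoH β₀
    rw [h0, if_pos rfl] at this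
    rw [mem_support_iff] at hβ₀
    exact hβ₀ (by simpa using this.symm)
  -- `D ≥ 2 k`
  have hD2k : 2 * k ≤ D := by
    by_contra hlt2
    push Not at hlt2
    obtain ⟨a, ha⟩ := hK (fun _ => 1) (by
      intro h0
      have := congrFun h0 ⟨0, by omega⟩
      simp at this)
    have h1 := hPK a (by simpa using ha 0) β₀ hlt2
    rw [coeff_sh] at h1
    rw [Finset.sum_eq_single β₀] at h1
    · rw [mem_support_iff] at hβ₀
      have h2 : bc a β₀ β₀ = 1 := by
        unfold bc
        simp
      rw [h2, mul_one] at h1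
      exact hβ₀ h1
    · intro β hβ hne'
      by_cases hle : β₀ ≤ β
      · exfalso
        apply hne'
        have h3 : β.degree ≤ β₀.degree := hmax β hβ
        have h4 : ∑ i, (β i - β₀ i) = 0 := by
          rw [sum_sub_eq hle]; omega
        rw [Finset.sum_eq_zero_iff] at h4
        ext i
        have h5 := h4 i (Finset.mem_univ i)
        have h6 := hle i
        omega
      · rw [bc_eq_zero _ hle, mul_zero]
    · intro h2; exact absurd hβ₀ h2
  have hvan : ∀ b : Fin n → F, ∀ γ : Fin n →₀ ℕ, γ.degree < k → coeff γ (sh b H) = 0 := by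
    intro b γ hγ
    by_cases hb : b = 0
    · rw [hb, sh_zero, hcoH, if_neg (by omega)]
    · obtain ⟨a, ha⟩ := hK b hb
      exact top_vanish a b γ P k D (fun β hβ => hmax β hβ) hDB hγ
        (fun t β hβ => hPK _ (ha t) β hβ)
  have h1 := mult_lemma n k H hvan hH0
  have h2 : H.totalDegree ≤ D := by
    rw [hH]
    exact (homogeneousComponent_isHomogeneous D P).totalDegree_le
  omega

lemma kak_ineq {F : Type*} [Field F] [Fintype F] (n : ℕ) (K : Finset (Fin n → F)) (hn : 1 ≤ n)
    (hK : ∀ b : Fin n → F, b ≠ 0 → ∃ a : Fin n → F, ∀ t : F, a + t • b ∈ K) (k : ℕ) (hk : 1 ≤ k) :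
    (k * Fintype.card F) ^ n ≤ K.card * (2 * k + n) ^ n := by
  have h1 := kak_count n K hn hK k hk
  have hq : 0 < Fintype.card F := Fintype.card_pos
  have h2 := card_idx' n (k * Fintype.card F) hn (Nat.mul_pos hk hq)
  have h3 := card_idx' n (2 * k) hn (by omega)
  calc (k * Fintype.card F) ^ n ≤ (k * Fintype.card F).ascFactorial n :=
        Nat.pow_succ_le_ascFactorial _ _
    _ = n.factorial * (idx n (k * Fintype.card F)).card := h2.symm
    _ ≤ n.factorial * (K.card * (idx n (2 * k)).card) := Nat.mul_le_mul_left _ h1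
    _ = K.card * (n.factorial * (idx n (2 * k)).card) := by ring
    _ = K.card * (2 * k).ascFactorial n := by rw [h3]
    _ ≤ K.card * (2 * k + n) ^ n := by
        apply Nat.mul_le_mul_left
        obtain ⟨j, hj⟩ : ∃ j, 2 * k = j + 1 := ⟨2 * k - 1, by omega⟩
        rw [hj]
        exact (Nat.ascFactorial_le_pow_add j n).trans (Nat.pow_le_pow_left (by omega) n)

theorem t_KAK : S_KAK := by
  intro F _ _ _ n K hn hK
  have h1 : ∀ k : ℕ, ((Fintype.card F : ℝ)) ^ n ≤ K.card * (2 + (n : ℝ) * (1 / ((k : ℝ) + 1))) ^ n := by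
    intro k
    have h2 := kak_ineq n K hn hK (k + 1) (by omega)
    have h3 : (((k : ℝ) + 1) * Fintype.card F) ^ n ≤ K.card * (2 * ((k : ℝ) + 1) + n) ^ n := by
      exact_mod_cast h2
    have hk : (0 : ℝ) < (k : ℝ) + 1 := by positivity
    have h4 : (2 * ((k : ℝ) + 1) + n) = ((k : ℝ) + 1) * (2 + (n : ℝ) * (1 / ((k : ℝ) + 1))) := by
      field_simp
    rw [h4, mul_pow, mul_pow] at h3
    have h5 : (0 : ℝ) < ((k : ℝ) + 1) ^ n := by positivity
    have h6 : ((k : ℝ) + 1) ^ n * (Fintype.card F : ℝ) ^ n ≤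
        ((k : ℝ) + 1) ^ n * (K.card * (2 + (n : ℝ) * (1 / ((k : ℝ) + 1))) ^ n) := by
      linarith
    exact le_of_mul_le_mul_left h6 h5
  have h2 : Filter.Tendsto (fun k : ℕ => (K.card : ℝ) * (2 + (n : ℝ) * (1 / ((k : ℝ) + 1))) ^ n)
      Filter.atTop (nhds ((K.card : ℝ) * (2 + (n : ℝ) * 0) ^ n)) := by
    have h3 : Filter.Tendsto (fun k : ℕ => (1 : ℝ) / ((k : ℝ) + 1)) Filter.atTop (nhds 0) :=
      tendsto_one_div_add_atTop_nhds_zero_nat
    exact (((h3.const_mul (n : ℝ)).const_add 2).pow n).const_mul (K.card : ℝ)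
  have h3 := ge_of_tendsto' h2 h1
  rw [mul_zero, add_zero] at h3
  rw [div_pow, div_le_iff₀ (by positivity)]
  exact h3

end Pool.Agent.Run7.h338.FF
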