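import Mathlib
import Pool.Agent.Run7.h338.FF.Kak
import Pool.Agent.Run7.h338.FF.Iface2

set_option autoImplicit false

/-!
# Sets over finite fields with lines in most directions, constant `2 - 1 / q`
-/

open MvPolynomial Pool.Agent.H822

namespace Pool.Agent.Run7.h338.FF

/-- **KAK3**. Kakeya sets with lines in the directions `b ∈ B`, constant `2 - 1 / q`. -/
def S_KAK3 : Prop :=
  ∀ (F : Type) [Field F] [Fintype F] [DecidableEq F] (n : ℕ) (K B : Finset (Fin n → F)) (δ : ℝ),
    1 ≤ n → 0 ≤ δ → δ < 1 →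
    (∀ b ∈ B, b ≠ 0 ∧ ∃ a : Fin n → F, ∀ t : F, a + t • b ∈ K) → B.Nonempty →
      (1 - δ) * (Fintype.card F : ℝ) ^ n ≤ B.card + 1 →
      ((1 - δ) * (Fintype.card F : ℝ) / (2 - 1 / (Fintype.card F : ℝ))) ^ n ≤ K.card

/-- Main step: the Hasse derivatives of the top degree part vanish at every direction of a line in
the set. -/
lemma top_vanish3 {F : Type*} [Field F] [Fintype F] {n : ℕ} (x b : Fin n → F) (γ : Fin n →₀ ℕ)
    (P : MvPolynomial (Fin n) F)
    (k D M : ℕ) (hD : ∀ β ∈ P.support, β.degree ≤ D) (hDk : D < k * Fintype.card F)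
    (hM : 2 * (k * Fintype.card F) ≤ M * Fintype.card F + k)
    (hγ : γ.degree < k)
    (h : ∀ t : F, ∀ β : Fin n →₀ ℕ, β.degree < M → coeff β (sh (x + t • b) P) = 0) :
    coeff γ (sh b (homogeneousComponent D P)) = 0 := by
  classical
  rw [← coeff_QQ x b γ P D hD]
  have hq : 1 ≤ Fintype.card F := Fintype.card_pos
  suffices hz : QQ x b γ P = 0 by rw [hz]; simp
  by_contra hne
  have hdvd : ∀ t ∈ (Finset.univ : Finset F),
      (Polynomial.X - Polynomial.C t) ^ (M - γ.degree) ∣ QQ x b γ P := by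
    intro t _
    rw [Polynomial.X_sub_C_pow_dvd_iff, ← Polynomial.taylor_apply, taylor_QQ]
    exact X_pow_dvd_QQ _ b γ P M (h t)
  have hprod : ∏ t : F, (Polynomial.X - Polynomial.C t) ^ (M - γ.degree) ∣ QQ x b γ P := by
    apply Finset.prod_dvd_of_coprime _ hdvd
    intro a _ c _ hab
    apply IsCoprime.pow
    exact Polynomial.isCoprime_X_sub_C_of_isUnit_sub (sub_ne_zero.2 hab).isUnit
  have hd := Polynomial.natDegree_le_of_dvd hprod hne
  rw [Polynomial.natDegree_prod _ _ (fun a _ => pow_ne_zero _ (Polynomial.X_sub_C_ne_zero a))] at hd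
  simp only [Polynomial.natDegree_pow, Polynomial.natDegree_X_sub_C, mul_one, Finset.sum_const,
    Finset.card_univ, smul_eq_mul] at hd
  have hd2 := natDegree_QQ x b γ P D hD
  generalize Fintype.card F = q at *
  generalize γ.degree = w at *
  have hMk : k ≤ M := by
    by_contra hlt
    push Not at hlt
    have h1 : M * q + q ≤ k * q := by
      calc M * q + q = (M + 1) * q := by ring
        _ ≤ k * q := Nat.mul_le_mul_right _ hlt
    have h2 : k ≤ k * q := Nat.le_mul_of_pos_right _ hq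
    omega
  obtain ⟨u, rfl⟩ : ∃ u, M = w + u := ⟨M - w, by omega⟩
  obtain ⟨v, rfl⟩ : ∃ v, k = w + v := ⟨k - w, by omega⟩
  rw [Nat.add_sub_cancel_left] at hd
  have h3 : q * u ≤ D - w := hd.trans hd2
  have h4 : w ≤ w * q := Nat.le_mul_of_pos_right _ hq
  have h5 : v ≤ v * q := Nat.le_mul_of_pos_right _ hq
  have h6 : (w + u) * q = w * q + q * u := by ring
  have h7 : (w + v) * q = w * q + v * q := by ring
  rw [h6, h7] at hM
  rw [h7] at hDk
  omega

lemma kak3_count (hS : S_MSUM) {F : Type} [Field F] [Fintype F] (n : ℕ) (K B : Finset (Fin n → F))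
    (δ : ℝ) (hB : ∀ b ∈ B, b ≠ 0 ∧ ∃ a : Fin n → F, ∀ t : F, a + t • b ∈ K)
    (hδ0 : 0 ≤ δ) (hne : B.Nonempty) (hcard : (1 - δ) * (Fintype.card F : ℝ) ^ n ≤ B.card + 1)
    (k M : ℕ) (hk : 1 ≤ k) (hM : 2 * (k * Fintype.card F) ≤ M * Fintype.card F + k) :
    (idx n ⌈(1 - δ) * (k * Fintype.card F)⌉₊).card ≤ K.card * (idx n M).card := by
  classical
  by_contra hlt
  push Not at hlt
  have hq : 0 < Fintype.card F := Fintype.card_pos
  have hqR : (0 : ℝ) < Fintype.card F := by exact_mod_cast hq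
  have hkR : (1 : ℝ) ≤ k := by exact_mod_cast hk
  have hMk : k ≤ M := by
    by_contra hlt
    push Not at hlt
    have h1 : M * Fintype.card F + Fintype.card F ≤ k * Fintype.card F := by
      calc M * Fintype.card F + Fintype.card F = (M + 1) * Fintype.card F := by ring
        _ ≤ k * Fintype.card F := Nat.mul_le_mul_right _ hlt
    have h2 : k ≤ k * Fintype.card F := Nat.le_mul_of_pos_right _ hq
    omega
  obtain ⟨P, hP0, hPB, hPK⟩ := exists_poly K M _ hlt
  have hPne : P.support.Nonempty := by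
    rw [Finset.nonempty_iff_ne_empty, Ne, MvPolynomial.support_eq_empty]
    exact hP0
  obtain ⟨β₀, hβ₀, hmax⟩ := Finset.exists_max_image P.support (fun β => β.degree) hPne
  set D := β₀.degree with hDdef
  have hDδ : (D : ℝ) < (1 - δ) * (k * Fintype.card F) := Nat.lt_ceil.1 (hPB β₀ hβ₀)
  have hDB : D < k * Fintype.card F := by
    have : (D : ℝ) < k * Fintype.card F := by
      have h1 : 0 ≤ δ * ((k : ℝ) * Fintype.card F) := by positivity
      nlinarith
    exact_mod_cast this
  set H := homogeneousComponent D P with hH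
  have hcoH : ∀ γ, coeff γ H = if γ.degree = D then coeff γ P else 0 := by
    intro γ
    rw [hH, coeff_homogeneousComponent]
  have hH0 : H ≠ 0 := by
    intro h0
    have := hcoH β₀
    rw [h0, if_pos rfl] at this
    rw [mem_support_iff] at hβ₀
    exact hβ₀ (by simpa using this.symm)
  have hDM : M ≤ D := by
    by_contra hlt2
    push Not at hlt2
    obtain ⟨b, hb⟩ := hne
    obtain ⟨a, ha⟩ := (hB b hb).2
    have h1 := hPK a (by simpa using ha 0) β₀ hlt2
    rw [coeff_sh] at h1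
    rw [Finset.sum_eq_single β₀] at h1
    · rw [mem_support_iff] at hβ₀
      have h2 : bc a β₀ β₀ = 1 := by
        unfold bc
        simp
      rw [h2, mul_one] at h1
      exact hβ₀ h1
    · intro β hβ hne'
      by_cases hle : β₀ ≤ β
      · exfalso
        apply hne'
        have h3 : β.degree ≤ β₀.degree := hmax β hβ
        have h4 : ∑ i, (β i - β₀ i) = 0 := by
          rw [sum_sub_eq hle]; omega
        rw [Finset.sum_eq_zero_iff] at h4
        ext i
        have h5 := h4 i (Finset.mem_univ i)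
        have h6 := hle i
        omega
      · rw [bc_eq_zero _ hle, mul_zero]
    · intro h2; exact absurd hβ₀ h2
  have h0B : (0 : Fin n → F) ∉ B := fun h => (hB 0 h).1 rfl
  have hvan : ∀ (b : Fin n → F) (γ : Fin n →₀ ℕ), γ.degree < (if b ∈ insert 0 B then k else 0) →
      coeff γ (sh b H) = 0 := by
    intro b γ hγ
    split_ifs at hγ with hb
    · rw [Finset.mem_insert] at hb
      rcases hb with hb | hb
      · rw [hb, sh_zero, hcoH, if_neg (by omega)]
      · obtain ⟨a, ha⟩ := (hB b hb).2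
        exact top_vanish3 a b γ P k D M (fun β hβ => hmax β hβ) hDB hM hγ
          (fun t β hβ => hPK _ (ha t) β hβ)
    · omega
  have h1 := hS F n (fun b => if b ∈ insert 0 B then k else 0) H hvan hH0
  rw [← Finset.sum_filter, Finset.sum_const, Finset.filter_mem_eq_inter, Finset.univ_inter,
    Finset.card_insert_of_notMem h0B, smul_eq_mul] at h1
  have h2 : H.totalDegree ≤ D := by
    rw [hH]
    exact (homogeneousComponent_isHomogeneous D P).totalDegree_le
  have h3 : Fintype.card F * ((B.card + 1) * k) ≤ D * Fintype.card F ^ n :=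
    h1.trans (Nat.mul_le_mul_right _ h2)
  have h4 : (Fintype.card F : ℝ) * (((B.card : ℝ) + 1) * k) ≤ D * (Fintype.card F : ℝ) ^ n := by
    exact_mod_cast h3
  have h5 : (0 : ℝ) < (Fintype.card F : ℝ) ^ n := by positivity
  have h6 : (Fintype.card F : ℝ) * (((1 - δ) * (Fintype.card F : ℝ) ^ n) * k) ≤
      D * (Fintype.card F : ℝ) ^ n := by
    refine le_trans ?_ h4
    apply mul_le_mul_of_nonneg_left _ hqR.le
    exact mul_le_mul_of_nonneg_right hcard (by positivity)
  have h7 : ((1 - δ) * (k * Fintype.card F)) * (Fintype.card F : ℝ) ^ n ≤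
      D * (Fintype.card F : ℝ) ^ n := by
    calc ((1 - δ) * (k * Fintype.card F)) * (Fintype.card F : ℝ) ^ n
        = (Fintype.card F : ℝ) * (((1 - δ) * (Fintype.card F : ℝ) ^ n) * k) := by ring
      _ ≤ _ := h6
  have h8 := le_of_mul_le_mul_right h7 h5
  linarith

lemma kak3_ineq (hS : S_MSUM) {F : Type} [Field F] [Fintype F] (n : ℕ) (K B : Finset (Fin n → F))
    (δ : ℝ) (hn : 1 ≤ n) (hB : ∀ b ∈ B, b ≠ 0 ∧ ∃ a : Fin n → F, ∀ t : F, a + t • b ∈ K)
    (hδ0 : 0 ≤ δ) (hδ1 : δ < 1) (hne : B.Nonempty)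
    (hcard : (1 - δ) * (Fintype.card F : ℝ) ^ n ≤ B.card + 1) (j : ℕ) (hj : 1 ≤ j) :
    ((1 - δ) * ((j * Fintype.card F) * Fintype.card F)) ^ n ≤
      (K.card : ℝ) * ((2 * (Fintype.card F : ℝ) - 1) * (j : ℝ) + n) ^ n := by
  have hq : 1 ≤ Fintype.card F := Fintype.card_pos
  have hqR : (1 : ℝ) ≤ Fintype.card F := by exact_mod_cast hq
  have hjR : (0 : ℝ) < j := by exact_mod_cast hj
  obtain ⟨r, hr⟩ : ∃ r, 2 * Fintype.card F = r + 1 := ⟨2 * Fintype.card F - 1, by omega⟩
  have hr1 : 1 ≤ r := by omega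
  have h1 := kak3_count hS n K B δ hB hδ0 hne hcard (j * Fintype.card F) (r * j)
    (Nat.mul_pos hj hq) (by
      have : 2 * (j * Fintype.card F * Fintype.card F) =
          r * j * Fintype.card F + j * Fintype.card F := by
        calc 2 * (j * Fintype.card F * Fintype.card F) =
            (2 * Fintype.card F) * (j * Fintype.card F) := by ring
          _ = (r + 1) * (j * Fintype.card F) := by rw [hr]
          _ = _ := by ring
      omega)
  have hpos : 0 < (1 - δ) * (((j * Fintype.card F : ℕ) : ℝ) * Fintype.card F) := by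
    have : 0 < 1 - δ := by linarith
    push_cast
    positivity
  set N := ⌈(1 - δ) * (((j * Fintype.card F : ℕ) : ℝ) * Fintype.card F)⌉₊ with hN
  have hN1 : 1 ≤ N := Nat.ceil_pos.2 hpos
  have hrj : 1 ≤ r * j := Nat.mul_pos hr1 hj
  have h2 := card_idx' n N hn hN1
  have h3 := card_idx' n (r * j) hn hrj
  have h4 : N ^ n ≤ K.card * (r * j + n) ^ n := by
    calc N ^ n ≤ N.ascFactorial n :=
          Nat.pow_succ_le_ascFactorial _ _
      _ = n.factorial * (idx n N).card := h2.symm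
      _ ≤ n.factorial * (K.card * (idx n (r * j)).card) := Nat.mul_le_mul_left _ h1
      _ = K.card * (n.factorial * (idx n (r * j)).card) := by ring
      _ = K.card * (r * j).ascFactorial n := by rw [h3]
      _ ≤ K.card * (r * j + n) ^ n := by
          apply Nat.mul_le_mul_left
          obtain ⟨i, hi⟩ : ∃ i, r * j = i + 1 := ⟨r * j - 1, by omega⟩
          rw [hi]
          exact (Nat.ascFactorial_le_pow_add i n).trans (Nat.pow_le_pow_left (by omega) n)
  have h5 : (N : ℝ) ^ n ≤ (K.card : ℝ) * ((r : ℝ) * (j : ℝ) + n) ^ n := by exact_mod_cast h4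
  have hrR : (r : ℝ) = 2 * (Fintype.card F : ℝ) - 1 := by
    have : (2 : ℝ) * Fintype.card F = r + 1 := by exact_mod_cast hr
    linarith
  rw [hrR] at h5
  refine le_trans ?_ h5
  have h6 : ((1 - δ) * (((j * Fintype.card F : ℕ) : ℝ) * Fintype.card F)) ^ n ≤ (N : ℝ) ^ n :=
    pow_le_pow_left₀ hpos.le (Nat.le_ceil _) n
  have h7 : (1 - δ) * ((j * (Fintype.card F : ℝ)) * Fintype.card F) =
      (1 - δ) * (((j * Fintype.card F : ℕ) : ℝ) * Fintype.card F) := by
    push_cast
    ring
  rw [h7]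
  exact h6

theorem t_KAK3 (hS : S_MSUM) : S_KAK3 := by
  intro F _ _ _ n K B δ hn hδ0 hδ1 hB hne hcard
  have hq : 1 ≤ Fintype.card F := Fintype.card_pos
  have hqR : (1 : ℝ) ≤ Fintype.card F := by exact_mod_cast hq
  set q : ℝ := ((Fintype.card F : ℕ) : ℝ) with hqdef
  have h1 : ∀ k : ℕ, ((1 - δ) * (q * q)) ^ n ≤
      K.card * ((2 * q - 1) + (n : ℝ) * (1 / ((k : ℝ) + 1))) ^ n := by
    intro k
    have h2 := kak3_ineq hS n K B δ hn hB hδ0 hδ1 hne hcard (k + 1) (by omega)
    rw [← hqdef] at h2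
    push_cast at h2
    have hk : (0 : ℝ) < (k : ℝ) + 1 := by positivity
    have h4 : ((2 * q - 1) * ((k : ℝ) + 1) + n) =
        ((k : ℝ) + 1) * ((2 * q - 1) + (n : ℝ) * (1 / ((k : ℝ) + 1))) := by
      field_simp
    have h4' : (1 - δ) * (((k : ℝ) + 1) * q * q) =
        ((k : ℝ) + 1) * ((1 - δ) * (q * q)) := by ring
    rw [h4, h4', mul_pow ((k : ℝ) + 1) ((1 - δ) * (q * q)),
      mul_pow ((k : ℝ) + 1) ((2 * q - 1) + (n : ℝ) * (1 / ((k : ℝ) + 1)))] at h2
    have h5 : (0 : ℝ) < ((k : ℝ) + 1) ^ n := by positivity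
    have h6 : ((k : ℝ) + 1) ^ n * ((1 - δ) * (q * q)) ^ n ≤
        ((k : ℝ) + 1) ^ n * (K.card * ((2 * q - 1) + (n : ℝ) * (1 / ((k : ℝ) + 1))) ^ n) := by
      linarith
    exact le_of_mul_le_mul_left h6 h5
  have h2 : Filter.Tendsto
      (fun k : ℕ => (K.card : ℝ) * ((2 * q - 1) + (n : ℝ) * (1 / ((k : ℝ) + 1))) ^ n)
      Filter.atTop (nhds ((K.card : ℝ) * ((2 * q - 1) + (n : ℝ) * 0) ^ n)) := by
    have h3 : Filter.Tendsto (fun k : ℕ => (1 : ℝ) / ((k : ℝ) + 1)) Filter.atTop (nhds 0) :=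
      tendsto_one_div_add_atTop_nhds_zero_nat
    exact (((h3.const_mul (n : ℝ)).const_add (2 * q - 1)).pow n).const_mul (K.card : ℝ)
  have h3 := ge_of_tendsto' h2 h1
  rw [mul_zero, add_zero] at h3
  have h4 : (1 - δ) * q / (2 - 1 / q) = (1 - δ) * (q * q) / (2 * q - 1) := by
    have h5 : (0 : ℝ) < 2 * q - 1 := by linarith
    have h6 : (0 : ℝ) < q := by linarith
    have h7 : 2 - 1 / q = (2 * q - 1) / q := by field_simp
    rw [h7]
    field_simp
  rw [h4, div_pow, div_le_iff₀ (by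
    have h5 : (0 : ℝ) < 2 * q - 1 := by linarith
    positivity)]
  exact h3

end Pool.Agent.Run7.h338.FF
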