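import Mathlib
import Pool.Agent.Run7.h338.FF.Dir2
import Pool.Agent.Run7.h338.FF.Kak3

set_option autoImplicit false

/-!
# Directions and covered polynomials, constant `2 (2 - 1 / q) ^ n (log n + 2)`
-/

namespace Pool.Agent.Run7.h338.FF

open Polynomial

/-- **DIR3**. -/
def S_DIR3 : Prop :=
  ∀ (F : Type) [Field F] [Fintype F] (m n : ℕ) (Q : Finset F[X]) (a : F[X] → F[X]), 0 < m → m < n →
    (∀ P ∈ Q, P ≠ 0 ∧ P.natDegree ≤ m) →
      ({h : F[X] | h ≠ 0 ∧ h.degree < (n : ℕ) ∧ ∃ P ∈ Q, P ∣ h}.ncard : ℝ) ≤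
        2 * (2 - 1 / (Fintype.card F : ℝ)) ^ n * (Real.log n + 2) *
          ({f : F[X] | f.degree < (n : ℕ) ∧ ∃ P ∈ Q, P ∣ f - a P}.ncard : ℝ)

lemma vec3 (hK : S_KAK3) (F : Type) [Field F] [Fintype F] [DecidableEq F] (n : ℕ) (hn : 2 ≤ n)
    (S D : Finset (Fin n → F))
    (hD : ∀ d ∈ D, d ≠ 0 ∧ ∃ a : Fin n → F, ∀ t : F, a + t • d ∈ S) :
    (D.card : ℝ) ≤ 2 * (2 - 1 / (Fintype.card F : ℝ)) ^ n * (Real.log n + 2) * S.card := by
  classical
  have hnR : (2 : ℝ) ≤ n := by exact_mod_cast hn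
  have hlogn : 0 ≤ Real.log n := Real.log_nonneg (by linarith)
  have hκ : (0 : ℝ) < 2 - 1 / (Fintype.card F : ℝ) := by
    have h1 : (1 : ℝ) ≤ (Fintype.card F : ℝ) := by
      exact_mod_cast (Fintype.card_pos : 0 < Fintype.card F)
    have h2 : 1 / (Fintype.card F : ℝ) ≤ 1 := by
      rw [div_le_one (by linarith)]; exact h1
    linarith
  rcases D.eq_empty_or_nonempty with hDe | hDne
  · rw [hDe]
    simp only [Finset.card_empty, Nat.cast_zero]
    positivity
  obtain ⟨E, _, _, _, ⟨φ⟩⟩ := exists_field F n (by omega)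
  set D' : Finset Eˣ := Finset.univ.filter (fun u : Eˣ => φ.symm (u : E) ∈ D) with hD'
  have hDcard : D'.card = D.card := by
    apply Finset.card_bij (fun (u : Eˣ) _ => φ.symm (u : E))
    · intro u hu
      exact (Finset.mem_filter.1 hu).2
    · intro u _ u' _ h
      exact Units.ext (φ.symm.injective h)
    · intro d hd
      have hφ : φ d ≠ 0 := by
        intro h0
        exact (hD d hd).1 ((map_eq_zero_iff φ φ.injective).1 h0)
      refine ⟨Units.mk0 (φ d) hφ, ?_, ?_⟩
      · rw [hD', Finset.mem_filter]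
        exact ⟨Finset.mem_univ _, by simpa using hd⟩
      · simp
  have hEcard : Fintype.card E = Fintype.card F ^ n := by
    rw [← Fintype.card_congr φ.toEquiv]
    simp
  have hGcard : Fintype.card Eˣ + 1 = Fintype.card F ^ n := by
    rw [Fintype.card_units, hEcard]
    have : 1 ≤ Fintype.card F ^ n := Nat.one_le_pow _ _ Fintype.card_pos
    omega
  set g : ℝ := ((Fintype.card Eˣ : ℕ) : ℝ) with hg
  set q : ℝ := ((Fintype.card F : ℕ) : ℝ) with hq
  set κ : ℝ := 2 - 1 / q with hκdef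
  have hgq : g + 1 = q ^ n := by
    rw [hg, hq]; exact_mod_cast hGcard
  have hqpos : 0 < q := by rw [hq]; exact_mod_cast Fintype.card_pos
  have hg0 : 0 < g := by rw [hg]; exact_mod_cast Fintype.card_pos
  have hd0 : (0 : ℝ) < D.card := by exact_mod_cast hDne.card_pos
  have hdg : (D.card : ℝ) ≤ g := by
    rw [hg, ← hDcard]; exact_mod_cast Finset.card_le_univ D'
  have hlog2n : 0 ≤ Real.log (2 * n) := Real.log_nonneg (by linarith)
  set L : ℝ := Real.log (2 * n) * (g / D.card) with hL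
  have hL0 : 0 ≤ L := by positivity
  obtain ⟨C, hC, hU⟩ := Run7.h926.FF.greedy D' (⌊L⌋₊ + 1)
  have hunc : ((Run7.h926.FF.unc C D').card : ℝ) ≤ g * (1 / (2 * n)) := by
    have hlt : L < ((⌊L⌋₊ + 1 : ℕ) : ℝ) := by
      push_cast
      exact Nat.lt_floor_add_one L
    have hδ : (0 : ℝ) < D.card / g := by positivity
    have h3 : (0 : ℝ) ≤ 1 - D.card / g := by
      rw [sub_nonneg, div_le_one hg0]
      exact hdg
    rw [hDcard] at hU
    refine hU.trans ?_
    apply mul_le_mul_of_nonneg_left _ hg0.le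
    calc (1 - (D.card : ℝ) / g) ^ (⌊L⌋₊ + 1)
        ≤ (Real.exp (-((D.card : ℝ) / g))) ^ (⌊L⌋₊ + 1) :=
          pow_le_pow_left₀ h3 (Real.one_sub_le_exp_neg _) _
      _ = Real.exp (-((D.card : ℝ) / g) * ((⌊L⌋₊ + 1 : ℕ) : ℝ)) := by
          rw [← Real.exp_nat_mul, mul_comm]
      _ ≤ Real.exp (-Real.log (2 * n)) := by
          apply Real.exp_le_exp.2
          have h6 : (D.card : ℝ) / g * L = Real.log (2 * n) := by
            rw [hL]
            field_simp
          have h7 := mul_lt_mul_of_pos_left hlt hδ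
          rw [h6] at h7
          linarith
      _ = 1 / (2 * n) := by
          rw [Real.exp_neg, Real.exp_log (by positivity), one_div]
  set B : Finset (Fin n → F) :=
    (Run7.h926.FF.unc C D')ᶜ.image (fun u : Eˣ => φ.symm (u : E)) with hB
  have hBcard : (B.card : ℝ) = g - (Run7.h926.FF.unc C D').card := by
    rw [hB, Finset.card_image_of_injective, Finset.card_compl, Nat.cast_sub (Finset.card_le_univ _)]
    intro u u' h
    exact Units.ext (φ.symm.injective h)
  set K : Finset (Fin n → F) := (C ×ˢ S).image (fun p => φ.symm ((p.1 : E) * φ p.2)) with hKdef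
  have hKcard : (K.card : ℝ) ≤ (L + 1) * S.card := by
    have h1 : K.card ≤ C.card * S.card := by
      rw [hKdef]
      refine Finset.card_image_le.trans ?_
      rw [Finset.card_product]
    have h2 : (K.card : ℝ) ≤ C.card * S.card := by exact_mod_cast h1
    have h3 : (C.card : ℝ) ≤ L + 1 := by
      calc (C.card : ℝ) ≤ ((⌊L⌋₊ + 1 : ℕ) : ℝ) := by exact_mod_cast hC
        _ = (⌊L⌋₊ : ℝ) + 1 := by push_cast; ring
        _ ≤ L + 1 := by
          have := Nat.floor_le hL0
          linarith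
    exact h2.trans (mul_le_mul_of_nonneg_right h3 (Nat.cast_nonneg _))
  have hBprop : ∀ b ∈ B, b ≠ 0 ∧ ∃ a : Fin n → F, ∀ t : F, a + t • b ∈ K := by
    intro b hb
    rw [hB, Finset.mem_image] at hb
    obtain ⟨u, hu, rfl⟩ := hb
    refine ⟨?_, ?_⟩
    · intro h0
      exact u.ne_zero ((map_eq_zero_iff φ.symm φ.symm.injective).1 h0)
    · rw [Finset.mem_compl, Run7.h926.FF.unc, Finset.mem_filter] at hu
      push Not at hu
      obtain ⟨c, hc, hcu⟩ := hu (Finset.mem_univ _)
      rw [hD', Finset.mem_filter] at hcu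
      obtain ⟨_, hcu⟩ := hcu
      refine line_mul φ S C c hc _ _ ?_ (hD _ hcu).2
      simp
  have hδ0 : (0 : ℝ) ≤ 1 / (2 * n) := by positivity
  have hδ1 : (1 : ℝ) / (2 * n) < 1 := by
    rw [div_lt_one (by positivity)]; linarith
  have hBne : B.Nonempty := by
    rw [← Finset.card_pos]
    have h1 : (0 : ℝ) < B.card := by
      rw [hBcard]
      have : g * (1 / (2 * n)) < g := by
        calc g * (1 / (2 * n)) < g * 1 := mul_lt_mul_of_pos_left hδ1 hg0
          _ = g := mul_one g
      linarith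
    exact_mod_cast h1
  have hBbig : (1 - 1 / (2 * (n : ℝ))) * q ^ n ≤ B.card + 1 := by
    rw [hBcard]
    have h1 : g * (1 / (2 * n)) ≤ q ^ n * (1 / (2 * n)) :=
      mul_le_mul_of_nonneg_right (by linarith) hδ0
    have h2 : (1 - 1 / (2 * (n : ℝ))) * q ^ n = q ^ n - q ^ n * (1 / (2 * n)) := by ring
    rw [h2]
    linarith
  have hmain := hK F n K B (1 / (2 * n)) (by omega) hδ0 hδ1 hBprop hBne hBbig
  have hhalf : (1 / 2 : ℝ) ≤ (1 - 1 / (2 * (n : ℝ))) ^ n := by
    have h1 := one_add_mul_le_pow (a := -(1 / (2 * (n : ℝ)))) (by linarith) n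
    have h2 : 1 + (n : ℝ) * (-(1 / (2 * (n : ℝ)))) = 1 / 2 := by
      field_simp
      norm_num
    rw [h2] at h1
    rw [sub_eq_add_neg]
    exact h1
  have h1 : q ^ n / (2 * κ ^ n) ≤ (L + 1) * S.card := by
    refine le_trans ?_ (hmain.trans hKcard)
    rw [div_pow, mul_pow, div_le_div_iff₀ (by positivity) (by positivity)]
    have h2 : 0 ≤ q ^ n * κ ^ n := by positivity
    nlinarith
  have h2 : L + 1 ≤ (Real.log n + 2) * (q ^ n / D.card) := by
    have h3 : 1 ≤ q ^ n / D.card := by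
      rw [one_le_div hd0]; linarith
    have h4 : Real.log (2 * n) ≤ Real.log n + 1 := by
      rw [Real.log_mul (by norm_num) (by positivity)]
      have := Real.log_two_lt_d9
      linarith
    have h5 : g / D.card ≤ q ^ n / D.card := by
      apply div_le_div_of_nonneg_right _ hd0.le
      linarith
    have h6 : 0 ≤ g / D.card := by positivity
    calc L + 1 ≤ (Real.log n + 1) * (q ^ n / D.card) + 1 * (q ^ n / D.card) := by
          apply add_le_add
          · rw [hL]
            exact mul_le_mul h4 h5 h6 (by positivity)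
          · rw [one_mul]; exact h3
      _ = _ := by ring
  have h3 : q ^ n / (2 * κ ^ n) ≤ (Real.log n + 2) * (q ^ n / D.card) * S.card :=
    h1.trans (mul_le_mul_of_nonneg_right h2 (Nat.cast_nonneg _))
  have hqn : 0 < q ^ n := by positivity
  have h4 : q ^ n * D.card ≤ q ^ n * (2 * κ ^ n * (Real.log n + 2) * S.card) := by
    rw [div_le_iff₀ (by positivity)] at h3
    have h5 := mul_le_mul_of_nonneg_right h3 hd0.le
    calc q ^ n * D.card ≤ (Real.log n + 2) * (q ^ n / D.card) * S.card * (2 * κ ^ n) * D.card := h5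
      _ = _ := by field_simp
  exact le_of_mul_le_mul_left h4 hqn

theorem t_DIR3 (hK : S_KAK3) : S_DIR3 := by
  classical
  intro F _ _ m n Q a hm hmn hQ
  set e := Polynomial.degreeLTEquiv F n with he
  -- transport of a finite set of polynomials
  have htrans : ∀ p : F[X] → Prop, ∃ S : Finset (Fin n → F),
      (∀ v, v ∈ S ↔ p (e.symm v : F[X])) ∧ {f : F[X] | f.degree < (n : ℕ) ∧ p f}.ncard = S.card := by
    intro p
    have hinj : Function.Injective (fun v : Fin n → F => ((e.symm v : degreeLT F n) : F[X])) := by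
      intro v w h
      exact e.symm.injective (Subtype.ext h)
    refine ⟨Finset.univ.filter (fun v : Fin n → F => p (e.symm v : F[X])), fun v => by simp, ?_⟩
    rw [← Finset.card_image_of_injective _ hinj, ← Set.ncard_coe_finset]
    congr 1
    ext f
    simp only [Set.mem_ofPred_eq, Finset.coe_image, Finset.coe_filter, Finset.mem_univ, true_and,
      Set.mem_image]
    constructor
    · rintro ⟨h1, h2⟩
      refine ⟨e ⟨f, Polynomial.mem_degreeLT.2 h1⟩, ?_, ?_⟩
      · simpa using h2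
      · simp
    · rintro ⟨v, hv, rfl⟩
      exact ⟨Polynomial.mem_degreeLT.1 (e.symm v).2, hv⟩
  obtain ⟨D, hDmem, hDcard⟩ := htrans (fun f => f ≠ 0 ∧ ∃ P ∈ Q, P ∣ f)
  obtain ⟨S, hSmem, hScard⟩ := htrans (fun f => ∃ P ∈ Q, P ∣ f - a P)
  have h1 : {h : F[X] | h ≠ 0 ∧ h.degree < (n : ℕ) ∧ ∃ P ∈ Q, P ∣ h} =
      {f : F[X] | f.degree < (n : ℕ) ∧ (f ≠ 0 ∧ ∃ P ∈ Q, P ∣ f)} := by
    ext f
    simp only [Set.mem_ofPred_eq]
    tauto
  rw [h1, hDcard, hScard]
  apply vec3 hK F n (by omega)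
  intro d hd
  rw [hDmem] at hd
  obtain ⟨hd0, P, hP, hPd⟩ := hd
  refine ⟨?_, ?_⟩
  · rintro rfl
    apply hd0
    simp
  · obtain ⟨hP0, hPm⟩ := hQ P hP
    have hdeg : (a P % P).degree < (n : ℕ) := by
      refine (Polynomial.degree_mod_lt (a P) hP0).trans_le ?_
      refine Polynomial.degree_le_natDegree.trans ?_
      exact_mod_cast (hPm.trans hmn.le)
    refine ⟨e ⟨a P % P, Polynomial.mem_degreeLT.2 hdeg⟩, fun t => ?_⟩
    rw [hSmem]
    refine ⟨P, hP, ?_⟩
    rw [map_add, map_smul, LinearEquiv.symm_apply_apply]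
    simp only [Submodule.coe_add, Submodule.coe_smul]
    have h3 : a P % P + t • (e.symm d : F[X]) - a P = t • (e.symm d : F[X]) - P * (a P / P) := by
      have := EuclideanDomain.div_add_mod (a P) P
      linear_combination this
    rw [h3]
    apply dvd_sub
    · rw [Polynomial.smul_eq_C_mul]
      exact Dvd.dvd.mul_left hPd _
    · exact dvd_mul_right _ _

end Pool.Agent.Run7.h338.FF
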