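import Mathlib
import Pool.Agent.Run7.h715.FF.Irred

set_option autoImplicit false

/-!
# Number of monic irreducible polynomials of degree `d` over any finite field

Variant for all `q ≥ 2` of `Run7.h715.FF.t_IRRED` (helper715), with divisors of `d`.
-/

open Polynomial IntermediateField Run7.h715.FF

namespace Pool.Agent.Run7.h338.FF

def S_IRRED3 : Prop :=
  ∀ (F : Type) [Field F] [Fintype F] (d : ℕ), 0 < d →
    ∃ S : Finset F[X], (∀ P ∈ S, P.Monic ∧ Irreducible P ∧ P.natDegree = d) ∧
      Fintype.card F ^ d ≤ 2 * d * S.card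

theorem geom3 (p : ℕ) (hp : 2 ≤ p) (k : ℕ) :
    (∑ e ∈ Finset.Ico 1 (k + 1), p ^ e) + 2 ≤ 2 * p ^ k := by
  induction k with
  | zero => simp
  | succ k ih =>
    rw [Finset.sum_Ico_succ_top (by omega), pow_succ]
    have : 0 < p ^ k := by positivity
    nlinarith

theorem geom3' (p : ℕ) (hp : 2 ≤ p) (d : ℕ) (hd : 0 < d) :
    2 * (∑ e ∈ Finset.Ico 1 (d / 2 + 1), p ^ e) ≤ p ^ d := by
  have h1 := geom3 p hp (d / 2)
  have h2 : p ^ (2 * (d / 2)) ≤ p ^ d := Nat.pow_le_pow_right (by omega) (by omega)
  rw [mul_comm 2 (d / 2), pow_mul] at h2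
  set x := p ^ (d / 2) with hx
  have hx1 : 1 ≤ x := Nat.one_le_pow _ _ (by omega)
  have h3 : 4 * x ≤ x ^ 2 + 4 := by
    zify
    nlinarith [sq_nonneg ((x : ℤ) - 2)]
  omega

theorem t_IRRED3 : S_IRRED3 := by
  intro F _ _ d hd
  classical
  obtain ⟨L, _, _, _, hfin, hcard⟩ := ext_exists F d hd
  have hmf : Module.Finite F L := Module.Finite.of_finite
  set p := Fintype.card F with hpdef
  have hp1 : 1 < p := Fintype.one_lt_card
  let f : L → F[X] := fun x => minpoly F x
  have hint : ∀ x : L, IsIntegral F x := fun x => Algebra.IsIntegral.isIntegral x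
  let T : Finset L := Finset.univ.filter (fun x => (f x).natDegree = d)
  let B : ℕ → Finset L := fun e => Finset.univ.filter (fun x => x ^ (p ^ e) = x)
  have hB : ∀ e, 0 < e → (B e).card ≤ p ^ e := by
    intro e he
    have h1 : 1 < p ^ e := Nat.one_lt_pow he.ne' hp1
    have hdeg : (X ^ p ^ e - X : L[X]).natDegree = p ^ e :=
      FiniteField.X_pow_card_sub_X_natDegree_eq L h1
    have hne : (X ^ p ^ e - X : L[X]) ≠ 0 :=
      FiniteField.X_pow_card_sub_X_ne_zero L h1
    have hsub : B e ⊆ (X ^ p ^ e - X : L[X]).roots.toFinset := by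
      intro x hx
      rw [Finset.mem_filter] at hx
      rw [Multiset.mem_toFinset, mem_roots hne]
      simp [IsRoot, hx.2]
    calc (B e).card ≤ ((X ^ p ^ e - X : L[X]).roots.toFinset).card := Finset.card_le_card hsub
      _ ≤ (X ^ p ^ e - X : L[X]).roots.card := Multiset.toFinset_card_le _
      _ ≤ (X ^ p ^ e - X : L[X]).natDegree := card_roots' _
      _ = p ^ e := hdeg
  have hcover : (Finset.univ : Finset L) ⊆
      T ∪ (Finset.Ico 1 (d / 2 + 1)).biUnion B := by
    intro x _
    rw [Finset.mem_union, Finset.mem_biUnion]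
    have h1 : (f x).natDegree ≤ d := by
      rw [← hfin]
      exact minpoly.natDegree_le x
    have h2 : 0 < (f x).natDegree := minpoly.natDegree_pos (hint x)
    rcases h1.lt_or_eq with h | h
    · right
      have h3 : (f x).natDegree ∣ d := by
        have h4 := Module.finrank_mul_finrank F F⟮x⟯ L
        rw [IntermediateField.adjoin.finrank (hint x), hfin] at h4
        exact Dvd.intro _ h4
      have h5 : (f x).natDegree < d / 2 + 1 := by
        obtain ⟨c, hc⟩ := h3
        have hc2 : 2 ≤ c := by
          by_contra hlt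
          push Not at hlt
          interval_cases c
          · omega
          · omega
        have : (f x).natDegree * 2 ≤ d := by
          calc (f x).natDegree * 2 ≤ (f x).natDegree * c := Nat.mul_le_mul_left _ hc2
            _ = d := hc.symm
        omega
      refine ⟨(f x).natDegree, Finset.mem_Ico.mpr ⟨h2, h5⟩, ?_⟩
      rw [Finset.mem_filter]
      exact ⟨Finset.mem_univ _, pow_of_natDegree F L x⟩
    · left
      rw [Finset.mem_filter]
      exact ⟨Finset.mem_univ _, h⟩
  have hTcard : p ^ d ≤ 2 * T.card := by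
    have h1 : p ^ d ≤ T.card + ∑ e ∈ Finset.Ico 1 (d / 2 + 1), p ^ e := by
      calc p ^ d = (Finset.univ : Finset L).card := by rw [Finset.card_univ, hcard]
        _ ≤ (T ∪ (Finset.Ico 1 (d / 2 + 1)).biUnion B).card := Finset.card_le_card hcover
        _ ≤ T.card + ((Finset.Ico 1 (d / 2 + 1)).biUnion B).card := Finset.card_union_le _ _
        _ ≤ T.card + ∑ e ∈ Finset.Ico 1 (d / 2 + 1), (B e).card :=
          Nat.add_le_add_left Finset.card_biUnion_le _
        _ ≤ T.card + ∑ e ∈ Finset.Ico 1 (d / 2 + 1), p ^ e := by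
          apply Nat.add_le_add_left
          apply Finset.sum_le_sum
          intro e he
          exact hB e (Finset.mem_Ico.mp he).1
    have h3 := geom3' p hp1 d hd
    omega
  refine ⟨T.image f, ?_, ?_⟩
  · intro P hP
    rw [Finset.mem_image] at hP
    obtain ⟨x, hx, rfl⟩ := hP
    rw [Finset.mem_filter] at hx
    exact ⟨minpoly.monic (hint x), minpoly.irreducible (hint x), hx.2⟩
  · have hfib : ∀ P ∈ T.image f, (T.filter (fun x => f x = P)).card ≤ d := by
      intro P hP
      rw [Finset.mem_image] at hP
      obtain ⟨y, hy, rfl⟩ := hP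
      rw [Finset.mem_filter] at hy
      have hmon : (f y).Monic := minpoly.monic (hint y)
      have hne : (f y).map (algebraMap F L) ≠ 0 := (hmon.map _).ne_zero
      have hsub : T.filter (fun x => f x = f y) ⊆
          ((f y).map (algebraMap F L)).roots.toFinset := by
        intro x hx
        rw [Finset.mem_filter] at hx
        rw [Multiset.mem_toFinset, mem_roots hne, IsRoot, eval_map_algebraMap, ← hx.2]
        exact minpoly.aeval _ _
      calc (T.filter (fun x => f x = f y)).card
          ≤ (((f y).map (algebraMap F L)).roots.toFinset).card := Finset.card_le_card hsub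
        _ ≤ ((f y).map (algebraMap F L)).roots.card := Multiset.toFinset_card_le _
        _ ≤ ((f y).map (algebraMap F L)).natDegree := card_roots' _
        _ ≤ (f y).natDegree := natDegree_map_le
        _ = d := hy.2
    have h1 := Finset.card_le_mul_card_image T d hfib
    calc p ^ d ≤ 2 * T.card := hTcard
      _ ≤ 2 * (d * (T.image f).card) := Nat.mul_le_mul_left _ h1
      _ = 2 * d * (T.image f).card := by ring

end Pool.Agent.Run7.h338.FF
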