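import Mathlib
import Pool.Agent.Run7.h338.FF.Dir3
import Pool.Agent.Run7.h338.FF.Irred3
import Pool.Agent.Run7.h626.FF.MSUM
import Pool.Agent.Run7.h715.FF.Count

set_option autoImplicit false

/-!
# Assembly: residue classes modulo polynomials over `F_q[t]`
-/

open Polynomial

namespace Pool.Agent.Run7.h338.FF

/-- Number of nonzero polynomials of degree `< n` divisible by at least one modulus of `Q`. -/
noncomputable def mul {F : Type} [Field F] (n : ℕ) (Q : Set F[X]) : ℕ :=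
  {h : F[X] | h ≠ 0 ∧ h.degree < (n : ℕ) ∧ ∃ P ∈ Q, P ∣ h}.ncard

/-- Number of polynomials `f` of degree `< n` with `f ≡ a P mod P` for at least one `P` of `Q`. -/
noncomputable def cov {F : Type} [Field F] (n : ℕ) (Q : Set F[X]) (a : F[X] → F[X]) : ℕ :=
  {f : F[X] | f.degree < (n : ℕ) ∧ ∃ P ∈ Q, P ∣ f - a P}.ncard

/-- The monic irreducible polynomials of degree `m`. -/
def Irr (F : Type) [Field F] (m : ℕ) : Set F[X] :=
  {P | P.Monic ∧ Irreducible P ∧ P.natDegree = m}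

lemma finite_deg (F : Type) [Field F] [Fintype F] (n : ℕ) :
    {f : F[X] | f.degree < (n : ℕ)}.Finite := by
  have h : Finite (Polynomial.degreeLT F n) := by
    exact Finite.of_equiv _ (Polynomial.degreeLTEquiv F n).toEquiv.symm
  have h2 : ((Polynomial.degreeLT F n : Submodule F F[X]) : Set F[X]).Finite := Set.toFinite _
  apply h2.subset
  intro f hf
  rw [SetLike.mem_coe, Polynomial.mem_degreeLT]
  exact hf

lemma cov_mono {F : Type} [Field F] [Fintype F] (n : ℕ) {Q Q' : Set F[X]} (h : Q ⊆ Q')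
    (a : F[X] → F[X]) : cov n Q a ≤ cov n Q' a := by
  unfold cov
  apply Set.ncard_le_ncard
  · rintro f ⟨h1, P, h2, h3⟩
    exact ⟨h1, P, h h2, h3⟩
  · exact (finite_deg F n).subset (fun f hf => hf.1)

/-- the base `2 - 1 / q` -/
lemma kappa_pos (F : Type) [Field F] [Fintype F] : (1 : ℝ) < 2 - 1 / (Fintype.card F : ℝ) := by
  have h1 : (2 : ℝ) ≤ (Fintype.card F : ℝ) := by
    exact_mod_cast (Fintype.one_lt_card : 1 < Fintype.card F)
  have h2 : 1 / (Fintype.card F : ℝ) < 1 := by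
    rw [div_lt_one (by linarith)]; linarith
  linarith

lemma kappa_le (F : Type) [Field F] [Fintype F] : 2 - 1 / (Fintype.card F : ℝ) ≤ 2 := by
  have h2 : 0 ≤ 1 / (Fintype.card F : ℝ) := by positivity
  linarith

lemma const_nonneg (F : Type) [Field F] [Fintype F] (n : ℕ) :
    (0 : ℝ) ≤ 2 * (2 - 1 / (Fintype.card F : ℝ)) ^ n * (Real.log n + 2) := by
  have h1 := kappa_pos F
  have h2 : (0 : ℝ) ≤ Real.log n := Real.log_natCast_nonneg n
  have h3 : (0 : ℝ) < 2 - 1 / (Fintype.card F : ℝ) := by linarith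
  positivity

lemma part1 (h4 : S_DIR3) (F : Type) [Field F] [Fintype F] (n : ℕ) (hn : 2 ≤ n)
    (Q : Set F[X]) (a : F[X] → F[X]) :
    (mul n Q : ℝ) ≤ 2 * (2 - 1 / (Fintype.card F : ℝ)) ^ n * (Real.log n + 2) * cov n Q a := by
  classical
  set Q' : Finset F[X] := (finite_deg F n).toFinset.filter (fun P => P ∈ Q ∧ P ≠ 0) with hQ'
  have hmem : ∀ P, P ∈ Q' ↔ P.degree < (n : ℕ) ∧ P ∈ Q ∧ P ≠ 0 := by
    intro P
    rw [hQ', Finset.mem_filter, Set.Finite.mem_toFinset]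
    rfl
  have h5 := h4 F (n - 1) n Q' a (by omega) (by omega) (by
    intro P hP
    rw [hmem] at hP
    refine ⟨hP.2.2, ?_⟩
    have := (Polynomial.natDegree_lt_iff_degree_lt hP.2.2).2 hP.1
    omega)
  have h6 : mul n Q ≤ {h : F[X] | h ≠ 0 ∧ h.degree < (n : ℕ) ∧ ∃ P ∈ Q', P ∣ h}.ncard := by
    unfold mul
    apply Set.ncard_le_ncard
    · rintro h ⟨h0, hd, P, hP, hPh⟩
      refine ⟨h0, hd, P, ?_, hPh⟩
      have hP0 : P ≠ 0 := by
        rintro rfl
        exact h0 (zero_dvd_iff.1 hPh)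
      rw [hmem]
      exact ⟨(Polynomial.degree_le_of_dvd hPh h0).trans_lt hd, hP, hP0⟩
    · exact (finite_deg F n).subset (fun f hf => hf.2.1)
  have h7 : cov n (Q' : Set F[X]) a ≤ cov n Q a := by
    apply cov_mono
    intro P hP
    exact ((hmem P).1 hP).2.1
  calc (mul n Q : ℝ) ≤ ({h : F[X] | h ≠ 0 ∧ h.degree < (n : ℕ) ∧ ∃ P ∈ Q', P ∣ h}.ncard : ℝ) := by
        exact_mod_cast h6
    _ ≤ 2 * (2 - 1 / (Fintype.card F : ℝ)) ^ n * (Real.log n + 2) *
          cov n (Q' : Set F[X]) a := h5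
    _ ≤ 2 * (2 - 1 / (Fintype.card F : ℝ)) ^ n * (Real.log n + 2) * cov n Q a := by
        apply mul_le_mul_of_nonneg_left _ (const_nonneg F n)
        exact_mod_cast h7

lemma part2 (h3 : S_COUNT) (h4 : S_DIR3) (F : Type) [Field F] [Fintype F] (m n : ℕ)
    (Q : Finset F[X]) (a : F[X] → F[X]) (hmn : m < n) (hn : n ≤ 2 * m)
    (hQ : ∀ P ∈ Q, P ∈ Irr F m) :
    (Q.card : ℝ) * ((Fintype.card F : ℝ) ^ (n - m) - 1) ≤
      2 * (2 - 1 / (Fintype.card F : ℝ)) ^ n * (Real.log n + 2) * cov n (Q : Set F[X]) a := by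
  have hm : 0 < m := by omega
  have h5 := h3 F m n Q hm hmn hn hQ
  have h6 := h4 F m n Q a hm hmn (by
    intro P hP
    obtain ⟨h7, h8, h9⟩ := hQ P hP
    exact ⟨h7.ne_zero, h9.le⟩)
  have hq : 1 ≤ Fintype.card F := Fintype.card_pos
  have h7 : (Q.card : ℝ) * ((Fintype.card F : ℝ) ^ (n - m) - 1) ≤
      ({h : F[X] | h ≠ 0 ∧ h.degree < (n : ℕ) ∧ ∃ P ∈ Q, P ∣ h}.ncard : ℝ) := by
    have h8 : ((Q.card * (Fintype.card F ^ (n - m) - 1) : ℕ) : ℝ) ≤
      ({h : F[X] | h ≠ 0 ∧ h.degree < (n : ℕ) ∧ ∃ P ∈ Q, P ∣ h}.ncard : ℝ) := by exact_mod_cast h5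
    have h9 : 1 ≤ Fintype.card F ^ (n - m) := Nat.one_le_pow _ _ hq
    push_cast [Nat.cast_sub h9] at h8
    exact h8
  exact h7.trans h6

lemma part3 (h2 : S_IRRED3) (h3 : S_COUNT) (h4 : S_DIR3) (F : Type) [Field F] [Fintype F]
    (m n : ℕ) (a : F[X] → F[X]) (hmn : m < n) (hn : n ≤ 2 * m) :
    (Fintype.card F : ℝ) ^ n ≤
      8 * m * (2 - 1 / (Fintype.card F : ℝ)) ^ n * (Real.log n + 2) * cov n (Irr F m) a := by
  have hm : 0 < m := by omega
  obtain ⟨S, hS, hcard⟩ := h2 F m hm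
  have h5 := part2 h3 h4 F m n S a hmn hn hS
  have h6 : (cov n (S : Set F[X]) a : ℝ) ≤ cov n (Irr F m) a := by
    exact_mod_cast cov_mono n (fun P hP => hS P hP) a
  have hW := const_nonneg F n
  have hq' : (2 : ℝ) ≤ Fintype.card F := by
    exact_mod_cast (Fintype.one_lt_card : 1 < Fintype.card F)
  have h7 : (Fintype.card F : ℝ) ^ m ≤ 2 * m * S.card := by exact_mod_cast hcard
  set q : ℝ := ((Fintype.card F : ℕ) : ℝ) with hqdef
  have h8 : (2 : ℝ) ≤ q ^ (n - m) := by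
    calc (2 : ℝ) ≤ q := hq'
      _ = q ^ 1 := (pow_one q).symm
      _ ≤ q ^ (n - m) := pow_le_pow_right₀ (by linarith) (by omega)
  have h9 : q ^ (n - m) ≤ 2 * (q ^ (n - m) - 1) := by linarith
  have h10 : q ^ n = q ^ m * q ^ (n - m) := by
    rw [← pow_add]; congr 1; omega
  calc q ^ n = q ^ m * q ^ (n - m) := h10
    _ ≤ (2 * m * S.card) * (2 * (q ^ (n - m) - 1)) := by
        apply mul_le_mul h7 h9 (by positivity) (by positivity)
    _ = 4 * m * (S.card * (q ^ (n - m) - 1)) := by ring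
    _ ≤ 4 * m * (2 * (2 - 1 / q) ^ n * (Real.log n + 2) * cov n (S : Set F[X]) a) := by
        apply mul_le_mul_of_nonneg_left h5 (by positivity)
    _ ≤ 4 * m * (2 * (2 - 1 / q) ^ n * (Real.log n + 2) * cov n (Irr F m) a) := by
        apply mul_le_mul_of_nonneg_left _ (by positivity)
        exact mul_le_mul_of_nonneg_left h6 hW
    _ = _ := by ring

lemma const_le (F : Type) [Field F] [Fintype F] (m n : ℕ) (hmn : m < n) (hn : n ≤ 2 * m) :
    8 * (m : ℝ) * (2 - 1 / (Fintype.card F : ℝ)) ^ n * (Real.log n + 2) ≤ 16 ^ n := by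
  have hκ1 := kappa_pos F
  have hκ2 := kappa_le F
  have h1 : 8 * (m * (n + 1)) ≤ 8 ^ n := by
    have h2 : ∀ k : ℕ, 8 * ((k + 1) * (k + 3)) ≤ 8 ^ (k + 2) := by
      intro k
      induction k with
      | zero => norm_num
      | succ j ih =>
        rw [show j + 1 + 2 = (j + 2) + 1 by ring, pow_succ]
        nlinarith
    obtain ⟨k, rfl⟩ : ∃ k, n = k + 2 := ⟨n - 2, by omega⟩
    refine le_trans ?_ (h2 k)
    have : m ≤ k + 1 := by omega
    nlinarith
  have hn0 : (0 : ℝ) < n := by exact_mod_cast (by omega : 0 < n)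
  have h3 : Real.log n + 2 ≤ n + 1 := by
    have := Real.log_le_sub_one_of_pos hn0
    linarith
  have h4 : (8 : ℝ) * (m * (n + 1)) ≤ 8 ^ n := by exact_mod_cast h1
  have h5 : (2 - 1 / (Fintype.card F : ℝ)) ^ n ≤ 2 ^ n := pow_le_pow_left₀ (by linarith) hκ2 n
  calc 8 * (m : ℝ) * (2 - 1 / (Fintype.card F : ℝ)) ^ n * (Real.log n + 2)
      ≤ 8 * (m : ℝ) * 2 ^ n * (n + 1) := by
        have h6 : (0 : ℝ) ≤ Real.log n + 2 := by
          have := Real.log_natCast_nonneg n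
          linarith
        apply mul_le_mul _ h3 h6 (by positivity)
        exact mul_le_mul_of_nonneg_left h5 (by positivity)
    _ = (8 * (m * (n + 1))) * 2 ^ n := by ring
    _ ≤ 8 ^ n * 2 ^ n := mul_le_mul_of_nonneg_right h4 (by positivity)
    _ = 16 ^ n := by rw [← mul_pow]; norm_num

lemma part4 (h2 : S_IRRED3) (h3 : S_COUNT) (h4 : S_DIR3) (F : Type) [Field F] [Fintype F]
    (m n : ℕ) (a : F[X] → F[X]) (hmn : m < n) (hn : n ≤ 2 * m) :
    ((Fintype.card F : ℝ) / 16) ^ n ≤ cov n (Irr F m) a := by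
  have h6 := part3 h2 h3 h4 F m n a hmn hn
  have h7 := const_le F m n hmn hn
  have hC0 : (0 : ℝ) ≤ cov n (Irr F m) a := Nat.cast_nonneg _
  rw [div_pow, div_le_iff₀ (by positivity)]
  calc (Fintype.card F : ℝ) ^ n
      ≤ 8 * m * (2 - 1 / (Fintype.card F : ℝ)) ^ n * (Real.log n + 2) * cov n (Irr F m) a := h6
    _ ≤ 16 ^ n * cov n (Irr F m) a := mul_le_mul_of_nonneg_right h7 hC0
    _ = _ := mul_comm _ _

lemma part5 (h2 : S_IRRED3) (h3 : S_COUNT) (h4 : S_DIR3) (ε : ℝ)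
    (F : Type) [Field F] [Fintype F] (hq : (16 : ℝ) ≤ (Fintype.card F : ℝ) ^ ε)
    (m n : ℕ) (a : F[X] → F[X]) (hmn : m < n) (hn : n ≤ 2 * m) :
    (((Fintype.card F : ℝ) ^ n) ^ (1 - ε) : ℝ) ≤ cov n (Irr F m) a := by
  have hq2 : (2 : ℝ) ≤ Fintype.card F := by
    exact_mod_cast (Fintype.one_lt_card : 1 < Fintype.card F)
  have h6 := part4 h2 h3 h4 F m n a hmn hn
  set q : ℝ := ((Fintype.card F : ℕ) : ℝ) with hqdef
  have hq0 : (0 : ℝ) < q := by linarith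
  have h13 : (q ^ n) ^ (1 - ε) = q ^ n / (q ^ ε) ^ n := by
    rw [Real.rpow_sub (by positivity), Real.rpow_one, ← Real.rpow_natCast (q ^ ε) n,
      ← Real.rpow_natCast q n, ← Real.rpow_mul hq0.le, ← Real.rpow_mul hq0.le, mul_comm (n : ℝ) ε]
  rw [h13]
  refine le_trans ?_ h6
  rw [div_pow]
  apply div_le_div_of_nonneg_left (by positivity) (by positivity)
  exact pow_le_pow_left₀ (by norm_num) hq n

lemma poly_small (ε : ℝ) (hε : 0 < ε) : ∃ n₀ : ℕ, ∀ n : ℕ, n₀ ≤ n →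
    16 * ((n : ℝ) ^ 2) ≤ ((2 : ℝ) ^ ε) ^ n := by
  have h3 : (1 : ℝ) < (2 : ℝ) ^ ε := Real.one_lt_rpow (by norm_num) hε
  have h1 := tendsto_pow_const_div_const_pow_of_one_lt 2 h3
  have h2 : ∀ᶠ n : ℕ in Filter.atTop, (n : ℝ) ^ 2 / ((2 : ℝ) ^ ε) ^ n < 1 / 16 :=
    h1.eventually (gt_mem_nhds (by norm_num))
  obtain ⟨n₀, h4⟩ := Filter.eventually_atTop.1 h2
  refine ⟨n₀, fun n hn => ?_⟩
  have h5 := h4 n hn
  rw [div_lt_iff₀ (by positivity)] at h5
  linarith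

lemma part6 (h2 : S_IRRED3) (h3 : S_COUNT) (h4 : S_DIR3) (ε : ℝ) (hε : 0 < ε) :
    ∃ n₀ : ℕ, ∀ (F : Type) [Field F] [Fintype F] (m n : ℕ) (a : F[X] → F[X]),
      n₀ ≤ n → m < n → n ≤ 2 * m →
        (((Fintype.card F : ℝ) ^ n) ^ (1 - Real.log (2 - 1 / (Fintype.card F : ℝ)) /
          Real.log (Fintype.card F) - ε) : ℝ) ≤ cov n (Irr F m) a := by
  obtain ⟨n₀, h5⟩ := poly_small ε hε
  refine ⟨n₀, ?_⟩
  intro F _ _ m n a hn0 hmn hn
  have h6 := part3 h2 h3 h4 F m n a hmn hn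
  have h7 := h5 n hn0
  have hκ1 := kappa_pos F
  have hC0 : (0 : ℝ) ≤ cov n (Irr F m) a := Nat.cast_nonneg _
  have hq2 : (2 : ℝ) ≤ Fintype.card F := by
    exact_mod_cast (Fintype.one_lt_card : 1 < Fintype.card F)
  set q : ℝ := ((Fintype.card F : ℕ) : ℝ) with hqdef
  set κ : ℝ := 2 - 1 / q with hκ
  have hκ0 : 0 < κ := by linarith
  have hq0 : (0 : ℝ) < q := by linarith
  have hnR : (0 : ℝ) < n := by exact_mod_cast (by omega : 0 < n)
  have hn1 : (1 : ℝ) ≤ n := by exact_mod_cast (by omega : 1 ≤ n)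
  have hmR : (m : ℝ) ≤ n := by exact_mod_cast hmn.le
  have hlog : Real.log n + 2 ≤ 2 * n := by
    have := Real.log_le_sub_one_of_pos hnR
    linarith
  have h8 : ((2 : ℝ) ^ ε) ^ n ≤ (q ^ ε) ^ n :=
    pow_le_pow_left₀ (by positivity) (Real.rpow_le_rpow (by norm_num) hq2 hε.le) n
  have h9 : 8 * (m : ℝ) * κ ^ n * (Real.log n + 2) ≤ κ ^ n * (q ^ ε) ^ n := by
    calc 8 * (m : ℝ) * κ ^ n * (Real.log n + 2) ≤ 8 * (n : ℝ) * κ ^ n * (2 * n) := by
          apply mul_le_mul _ hlog _ (by positivity)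
          · apply mul_le_mul_of_nonneg_right _ (by positivity)
            linarith
          · have : 0 ≤ Real.log n := Real.log_nonneg hn1
            linarith
      _ = κ ^ n * (16 * (n : ℝ) ^ 2) := by ring
      _ ≤ κ ^ n * (q ^ ε) ^ n := mul_le_mul_of_nonneg_left (h7.trans h8) (by positivity)
  have h10 : q ^ n ≤ κ ^ n * (q ^ ε) ^ n * cov n (Irr F m) a :=
    h6.trans (mul_le_mul_of_nonneg_right h9 hC0)
  have hlogq : 0 < Real.log q := Real.log_pos (by linarith)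
  have hκq : q ^ (Real.log κ / Real.log q) = κ := by
    rw [Real.rpow_def_of_pos hq0, mul_div_cancel₀ _ hlogq.ne', Real.exp_log hκ0]
  have h11 : (q ^ n) ^ (1 - Real.log κ / Real.log q - ε) = q ^ n / (κ ^ n * (q ^ ε) ^ n) := by
    have h12 : (q ^ n) ^ (1 - Real.log κ / Real.log q - ε) =
        (q ^ (1 - Real.log κ / Real.log q - ε)) ^ n := by
      rw [← Real.rpow_natCast q n, ← Real.rpow_mul hq0.le, mul_comm, Real.rpow_mul hq0.le,
        Real.rpow_natCast]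
    rw [h12, Real.rpow_sub hq0, Real.rpow_sub hq0, Real.rpow_one, hκq, div_div, div_pow, mul_pow]
  rw [h11, div_le_iff₀ (by positivity), mul_comm]
  exact h10

end Pool.Agent.Run7.h338.FF
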